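import Pool.Agent.H559R9.Main

/-!
# Triangle detection in graphs with at most `m` edges
-/

namespace Pool.Agent.H559R9

open Finset Filter Pool.Agent.H520R2 Pool.Agent.H520R2.NM Pool.Agent.H559R4 Pool.Agent.H559R8

/-- The same design on a larger ground set. -/
def Design.lift {n m k q P : ℕ} (D : Design n k q P) (h : n ≤ m) (hk : 0 < k) :
    Design m k q P where
  pt p a := Fin.castLE h (D.pt p a)
  col v := if hv : (v : ℕ) < n then D.col ⟨v, hv⟩ else ⟨0, hk⟩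
  inj p a b hab := D.inj p (Fin.castLE_injective h hab)
  hcol p a := by
    have hv : ((Fin.castLE h (D.pt p a) : Fin m) : ℕ) < n := by simp
    rw [dif_pos hv]
    exact D.hcol p a
  tri := fun p₁ p₂ p₃ a₁ b₁ a₂ b₂ a₃ b₃ h1 h2 h3 => D.tri p₁ p₂ p₃ a₁ b₁ a₂ b₂ a₃ b₃
    (Fin.castLE_injective h h1) (Fin.castLE_injective h h2) (Fin.castLE_injective h h3)

theorem Design.lift_card {n m k q P : ℕ} (D : Design n k q P) (h : n ≤ m) (hk : 0 < k)
    (Y : Fin P → SimpleGraph (Fin k × Fin q)) :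
    (univ.filter (fun e => (D.lift h hk).enc Y e = true)).card ≤ n ^ 2 := by
  classical
  have hsub : (univ.filter (fun e => (D.lift h hk).enc Y e = true)) ⊆
      (univ : Finset (Fin n × Fin n)).image (fun z => s(Fin.castLE h z.1, Fin.castLE h z.2)) := by
    intro e he
    rw [mem_filter] at he
    have he2 := he.2
    unfold Design.enc at he2
    rw [decide_eq_true_eq] at he2
    induction e using Sym2.ind with
    | _ u v =>
      rw [SimpleGraph.mem_edgeSet] at he2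
      obtain ⟨p, a, b, h1, h2, _, _⟩ := he2
      rw [mem_image]
      exact ⟨(D.pt p a, D.pt p b), mem_univ _, by rw [← h1, ← h2]; rfl⟩
  refine (card_le_card hsub).trans (card_image_le.trans ?_)
  simp [sq]

open Classical in
theorem tri_sparse (γ θ : ℝ) (hγ : 0 ≤ γ) (hθ : 0 < θ) (h : 2 / 3 * θ + γ < 1) :
    ∃ α : ℝ, 0 < α ∧ ∀ᶠ m : ℕ in atTop, ∀ n : ℕ, m ≤ n ^ 2 →
      (∃ (Λ : Type) (_ : Fintype Λ) (_ : Nonempty Λ) (x : Λ → Sym2 (Fin n) → Bool),
        (∀ l, (univ.filter (fun e => x l e = true)).card ≤ m) ∧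
        ∀ (N : ℕ) (C : Circuit (Sym2 (Fin n)) N) (out : Wire (Sym2 (Fin n)) N),
          (((C.fanins.map (· + 1)).prod : ℕ) : ℝ) ≤ (m : ℝ) ^ γ →
          ((C.size + C.fanins.sum : ℕ) : ℝ) < (m : ℝ) ^ θ →
          ((univ.filter (fun l => (out.eval (x l) (C.vals (x l)) = true ↔
            ¬ (SimpleGraph.fromEdgeSet {e | x l e = true}).CliqueFree 3))).card : ℝ) <
            (1 / 2 + (m : ℝ) ^ (-α)) * Fintype.card Λ) ∧
      ∀ (Ω : Type) [Fintype Ω] (w : Ω → ℝ), (∀ r, 0 ≤ w r) → ∑ r, w r = 1 →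
        ∀ (N : Ω → ℕ) (C : ∀ r, Circuit (Sym2 (Fin n)) (N r))
          (out : ∀ r, Wire (Sym2 (Fin n)) (N r)),
          (∀ r, ((((C r).fanins.map (· + 1)).prod : ℕ) : ℝ) ≤ (m : ℝ) ^ γ) →
          (∀ r, (((C r).size + (C r).fanins.sum : ℕ) : ℝ) < (m : ℝ) ^ θ) →
          ∃ x : Sym2 (Fin n) → Bool, (univ.filter (fun e => x e = true)).card ≤ m ∧
            ∑ r ∈ univ.filter (fun r => ((out r).eval x ((C r).vals x) = true ↔
              ¬ (SimpleGraph.fromEdgeSet {e | x e = true}).CliqueFree 3)), w r <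
              1 / 2 + (m : ℝ) ^ (-α) := by
  set η : ℝ := 1 - γ - 2 / 3 * θ with hη
  have hη0 : 0 < η := by
    rw [hη]
    linarith
  obtain ⟨α, hα, hmain⟩ := gen_main (k := 3) le_rfl (γ := 2 * γ + η / 2) (θ := 2 / 3 * θ + η / 2)
    (by linarith) (by linarith) (by
      rw [hη]
      linarith)
  refine ⟨α / 4, by linarith, ?_⟩
  have hsqrt : Tendsto Nat.sqrt atTop atTop := by
    refine tendsto_atTop.2 (fun b => ?_)
    filter_upwards [eventually_ge_atTop (b * b)] with n hn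
    exact Nat.le_sqrt.2 hn
  filter_upwards [hsqrt.eventually hmain, hsqrt.eventually (eventually_ge_atTop 1),
    eventually_ge_atTop 1, hsqrt.eventually (rpow_ge ((4 : ℝ) ^ γ) (show 0 < η / 2 by linarith)),
    hsqrt.eventually (rpow_ge ((4 : ℝ) ^ θ) (show 0 < 3 * (η / 2) by linarith)),
    rpow_ge ((2 : ℝ) ^ α) (show 0 < α / 4 by linarith)]
    with m hm hs1 hm1 hg1 hg2 hg3
  intro n hn
  set t := Nat.sqrt m with ht
  have htn : t ≤ n := by
    have h1 : t * t ≤ m := Nat.sqrt_le m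
    have h2 : t * t ≤ n * n := by
      rw [← sq n]
      exact h1.trans hn
    exact Nat.mul_self_le_mul_self_iff.1 h2
  have ht0 : (0 : ℝ) < t := by exact_mod_cast hs1
  have hm0 : (0 : ℝ) < m := by exact_mod_cast hm1
  have hmt : (m : ℝ) ≤ 4 * (t : ℝ) ^ 2 := by
    have h1 : m < (t + 1) * (t + 1) := Nat.lt_succ_sqrt m
    have h2 : (t + 1) * (t + 1) ≤ 4 * t ^ 2 := by nlinarith
    exact_mod_cast h1.le.trans h2
  have htm : (t : ℝ) ^ 2 ≤ m := by
    have h1 : t * t ≤ m := Nat.sqrt_le m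
    rw [← sq] at h1
    exact_mod_cast h1
  obtain ⟨b, P, D, hD⟩ := hm
  let D' := D.lift htn (by norm_num)
  obtain ⟨Λ, hΛ1, hΛ2, Y, hY⟩ := hD D'.enc (fun Y Y' h => D'.enc_mono h)
    (fun Y J f hf => D'.enc_base Y J f hf)
    (fun x => ¬ (SimpleGraph.fromEdgeSet {e | x e = true}).CliqueFree 3)
    (fun Y => by rw [D'.enc_graph, D'.clique_iff le_rfl])
  have hcard : ∀ l, (univ.filter (fun e => D'.enc (Y l) e = true)).card ≤ m := by
    intro l
    refine (D.lift_card htn (by norm_num) (Y l)).trans ?_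
    rw [sq]
    exact Nat.sqrt_le m
  have hpow : ∀ a : ℝ, 0 ≤ a → (m : ℝ) ^ a ≤ 4 ^ a * (t : ℝ) ^ (2 * a) := by
    intro a ha
    calc (m : ℝ) ^ a ≤ (4 * (t : ℝ) ^ 2) ^ a := Real.rpow_le_rpow hm0.le hmt ha
      _ = 4 ^ a * (t : ℝ) ^ (2 * a) := by
          rw [Real.mul_rpow (by norm_num) (by positivity), Real.rpow_mul ht0.le, Real.rpow_two]
  have hP1 : (m : ℝ) ^ γ ≤ (t : ℝ) ^ (2 * γ + η / 2) := by
    refine (hpow γ hγ).trans ?_
    rw [Real.rpow_add ht0, mul_comm]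
    gcongr
  have hP2 : (m : ℝ) ^ θ ≤ (t : ℝ) ^ ((2 / 3 * θ + η / 2) * ((3 : ℕ) : ℝ)) := by
    refine (hpow θ hθ.le).trans ?_
    have e : (2 / 3 * θ + η / 2) * ((3 : ℕ) : ℝ) = 2 * θ + 3 * (η / 2) := by
      push_cast
      ring
    rw [e, Real.rpow_add ht0, mul_comm]
    gcongr
  have hP3 : (t : ℝ) ^ (-α) ≤ (m : ℝ) ^ (-(α / 4)) := by
    have h1 : (m : ℝ) ^ (α / 4) ≤ (t : ℝ) ^ α := by
      have h2 : (m : ℝ) ^ (α / 2) ≤ 2 ^ α * (t : ℝ) ^ α := by
        refine (hpow (α / 2) (by linarith)).trans (le_of_eq ?_)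
        have e1 : (4 : ℝ) ^ (α / 2) = 2 ^ α := by
          have : (4 : ℝ) = 2 ^ (2 : ℝ) := by norm_num
          rw [this, ← Real.rpow_mul (by norm_num)]
          congr 1
          ring
        rw [e1]
        congr 2
        ring
      have h3 : (m : ℝ) ^ (α / 2) = (m : ℝ) ^ (α / 4) * (m : ℝ) ^ (α / 4) := by
        rw [← Real.rpow_add hm0]
        congr 1
        ring
      rw [h3] at h2
      have h4 : 2 ^ α * (m : ℝ) ^ (α / 4) ≤ 2 ^ α * (t : ℝ) ^ α :=
        (mul_le_mul_of_nonneg_right hg3 (by positivity)).trans h2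
      exact le_of_mul_le_mul_left h4 (by positivity)
    rw [Real.rpow_neg ht0.le, Real.rpow_neg hm0.le]
    exact inv_anti₀ (by positivity) h1
  have hfin : ∀ (N : ℕ) (C : Circuit (Sym2 (Fin n)) N) (out : Wire (Sym2 (Fin n)) N),
      (((C.fanins.map (· + 1)).prod : ℕ) : ℝ) ≤ (m : ℝ) ^ γ →
      ((C.size + C.fanins.sum : ℕ) : ℝ) < (m : ℝ) ^ θ →
      ((univ.filter (fun l => (out.eval (D'.enc (Y l)) (C.vals (D'.enc (Y l))) = true ↔
        ¬ (SimpleGraph.fromEdgeSet {e | D'.enc (Y l) e = true}).CliqueFree 3))).card : ℝ) <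
        (1 / 2 + (m : ℝ) ^ (-(α / 4))) * Fintype.card Λ := by
    intro N C out h1 h2
    have h3 := hY N C out (h1.trans hP1) (h2.trans_le hP2)
    have h4 : ((univ.filter (fun l => (out.eval (D'.enc (Y l)) (C.vals (D'.enc (Y l))) = true ↔
        ¬ (SimpleGraph.fromEdgeSet {e | D'.enc (Y l) e = true}).CliqueFree 3))).card : ℝ) <
        (1 / 2 + (t : ℝ) ^ (-α)) * Fintype.card Λ := by
      convert h3
    refine h4.trans_le ?_
    gcongr
  refine ⟨⟨Λ, hΛ1, hΛ2, fun l => D'.enc (Y l), hcard, hfin⟩, ?_⟩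
  intro Ω _ w hw hw1 N C out h1 h2
  obtain ⟨l, hl⟩ := rand_of_dist' (1 / 2 + (m : ℝ) ^ (-(α / 4)))
    (fun r l => ((out r).eval (D'.enc (Y l)) ((C r).vals (D'.enc (Y l))) = true ↔
      ¬ (SimpleGraph.fromEdgeSet {e | D'.enc (Y l) e = true}).CliqueFree 3)) w hw hw1
    (fun r => by
      have := hfin _ (C r) (out r) (h1 r) (h2 r)
      convert this)
  refine ⟨D'.enc (Y l), hcard l, ?_⟩
  convert hl

end Pool.Agent.H559R9
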